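import Pool.Agent.Helper85.LC.Defs
import Pool.Agent.Helper42.LC_C
import Pool.Agent.Helper87.LC_AltPath

/-!
# MP_816dee_pr, module F1: a ring of alternating paths gives a long cycle
-/

namespace Pool.H85.LC

open Finset

/-- the combinatorial core of `dense_cycle`: a ring of alternating paths -/
theorem ring_of_clusters {W : Type} (Γ : SimpleGraph W) (J h s : ℕ) (hJ : 1 ≤ J)
    (hs : 8 * s ≤ 2 * h) (U U' : ℕ → Finset W)
    (hcard : ∀ i < 2 * J, (U i).card = h ∧ (U' i).card = h)
    (hUU' : ∀ i < 2 * J, ∀ j < 2 * J, Disjoint (U i) (U' j))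
    (hdis : ∀ i < 2 * J, ∀ j < 2 * J, i ≠ j → Disjoint (U i) (U j) ∧ Disjoint (U' i) (U' j))
    (hsee : ∀ i, i + 1 < 2 * J → ∀ A B : Finset W, (∀ v ∈ A, v ∈ U i ∨ v ∈ U' i) →
          (∀ v ∈ B, v ∈ U (i + 1) ∨ v ∈ U' (i + 1)) → s ≤ A.card → s ≤ B.card →
          ∃ a ∈ A, ∃ b ∈ B, Γ.Adj a b) :
    HasCycle Γ (4 * J * h - 16 * J * s) := by
  classical
  -- cell data
  let c : ℕ → ℕ := fun i => if i < J then 2 * i else 2 * (2 * J - 1 - i)
  let Z : ℕ → ℕ → Finset W := fun i => if i < J then U else U'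
  have hZ : ∀ i a, ∀ v ∈ Z i a, v ∈ U a ∨ v ∈ U' a := by
    intro i a v hv
    by_cases hi : i < J
    · left; simpa [Z, hi] using hv
    · right; simpa [Z, hi] using hv
  have hc : ∀ i < 2 * J, c i + 1 < 2 * J := by
    intro i hi
    simp only [c]
    split_ifs <;> omega
  have hZcard : ∀ i, ∀ a < 2 * J, (Z i a).card = h := by
    intro i a ha
    by_cases hi : i < J
    · simpa [Z, hi] using (hcard a ha).1
    · simpa [Z, hi] using (hcard a ha).2
  have hZdis : ∀ i, ∀ a < 2 * J, ∀ b < 2 * J, a ≠ b → Disjoint (Z i a) (Z i b) := by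
    intro i a ha b hb hab
    by_cases hi : i < J
    · simpa [Z, hi] using (hdis a ha b hb hab).1
    · simpa [Z, hi] using (hdis a ha b hb hab).2
  have key : ∀ i < 2 * J, ∃ l : List W, l.Nodup ∧ l.IsChain Γ.Adj ∧
      (∀ v ∈ l, v ∈ Z i (c i) ∨ v ∈ Z i (c i + 1)) ∧
      2 * h ≤ l.length + 4 * s ∧
      ∀ l' : List W, l' <:+: l → 2 * s ≤ l'.length →
        (∃ A ⊆ Z i (c i), s ≤ A.card ∧ ∀ v ∈ A, v ∈ l') ∧
        (∃ B ⊆ Z i (c i + 1), s ≤ B.card ∧ ∀ v ∈ B, v ∈ l') := by
    intro i hi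
    have hci := hc i hi
    refine alt_path Γ (Z i (c i)) (Z i (c i + 1))
      (hZdis i _ (by omega) _ hci (by omega)) h s (hZcard i _ (by omega)) (hZcard i _ hci) ?_
    intro A hA B hB hsA hsB
    exact hsee (c i) hci A B (fun v hv => hZ i _ v (hA hv)) (fun v hv => hZ i _ v (hB hv)) hsA hsB
  choose! P hP using key
  -- each end of each path meets both cells
  have hend : ∀ i < 2 * J, ∀ a, (a = c i ∨ a = c i + 1) → ∀ l' : List W, l' <:+: P i →
      2 * s ≤ l'.length → ∃ A ⊆ Z i a, s ≤ A.card ∧ ∀ v ∈ A, v ∈ l' := by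
    intro i hi a ha l' hl' hlen
    rcases ha with rfl | rfl
    · exact ((hP i hi).2.2.2.2 l' hl' hlen).1
    · exact ((hP i hi).2.2.2.2 l' hl' hlen).2
  have hlink1 : ∀ i < 2 * J, ∀ j < 2 * J, ∀ a b, (a = c i ∨ a = c i + 1) →
      (b = c j ∨ b = c j + 1) → (b = a + 1 ∨ a = b + 1) → ∀ l₁ l₂ : List W, l₁ <:+: P i →
      l₂ <:+: P j → 2 * s ≤ l₁.length → 2 * s ≤ l₂.length → ∃ x ∈ l₁, ∃ y ∈ l₂, Γ.Adj x y := by
    intro i hi j hj a b ha hb hab l₁ l₂ h₁ h₂ hl₁ hl₂
    obtain ⟨A, hA, hAs, hAl⟩ := hend i hi a ha l₁ h₁ hl₁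
    obtain ⟨B, hB, hBs, hBl⟩ := hend j hj b hb l₂ h₂ hl₂
    have hci := hc i hi
    have hcj := hc j hj
    rcases hab with rfl | rfl
    · obtain ⟨x, hx, y, hy, hxy⟩ := hsee a (by omega) A B (fun v hv => hZ i _ v (hA hv))
        (fun v hv => hZ j _ v (hB hv)) hAs hBs
      exact ⟨x, hAl x hx, y, hBl y hy, hxy⟩
    · obtain ⟨y, hy, x, hx, hxy⟩ := hsee b (by omega) B A (fun v hv => hZ j _ v (hB hv))
        (fun v hv => hZ i _ v (hA hv)) hBs hAs
      exact ⟨x, hAl x hx, y, hBl y hy, hxy.symm⟩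
  have hlenP : ∀ i < 2 * J, 2 * (2 * s) ≤ (P i).length := by
    intro i hi
    have := (hP i hi).2.2.2.1
    omega
  refine ring_cycle Γ (2 * J) (2 * s) (by omega) P (fun i hi => (hP i hi).1)
    (fun i hi => (hP i hi).2.1) ?_ hlenP ?_ ?_
  · intro i hi j hj hij v hvi hvj
    have h1 := (hP i hi).2.2.1 v hvi
    have h2 := (hP j hj).2.2.1 v hvj
    have hci := hc i hi
    have hcj := hc j hj
    have hcc : (i < J ↔ j < J) → c i ≠ c j ∧ c i ≠ c j + 1 ∧ c i + 1 ≠ c j ∧
        c i + 1 ≠ c j + 1 := by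
      intro hiff
      simp only [c]
      split_ifs <;> omega
    by_cases hi' : i < J <;> by_cases hj' : j < J
    · obtain ⟨n1, n2, n3, n4⟩ := hcc (by tauto)
      simp only [Z, hi', hj', if_true] at h1 h2
      rcases h1 with h1 | h1 <;> rcases h2 with h2 | h2
      · exact (Finset.disjoint_left.1 (hdis _ (by omega) _ (by omega) n1).1 h1 h2)
      · exact (Finset.disjoint_left.1 (hdis _ (by omega) _ (by omega) n2).1 h1 h2)
      · exact (Finset.disjoint_left.1 (hdis _ (by omega) _ (by omega) n3).1 h1 h2)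
      · exact (Finset.disjoint_left.1 (hdis _ (by omega) _ (by omega) n4).1 h1 h2)
    · simp only [Z, hi', hj', if_true, if_false] at h1 h2
      rcases h1 with h1 | h1 <;> rcases h2 with h2 | h2 <;>
      exact (Finset.disjoint_left.1 (hUU' _ (by omega) _ (by omega)) h1 h2)
    · simp only [Z, hi', hj', if_true, if_false] at h1 h2
      rcases h1 with h1 | h1 <;> rcases h2 with h2 | h2 <;>
      exact (Finset.disjoint_left.1 (hUU' _ (by omega) _ (by omega)) h2 h1)
    · obtain ⟨n1, n2, n3, n4⟩ := hcc (by tauto)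
      simp only [Z, hi', hj', if_false] at h1 h2
      rcases h1 with h1 | h1 <;> rcases h2 with h2 | h2
      · exact (Finset.disjoint_left.1 (hdis _ (by omega) _ (by omega) n1).2 h1 h2)
      · exact (Finset.disjoint_left.1 (hdis _ (by omega) _ (by omega) n2).2 h1 h2)
      · exact (Finset.disjoint_left.1 (hdis _ (by omega) _ (by omega) n3).2 h1 h2)
      · exact (Finset.disjoint_left.1 (hdis _ (by omega) _ (by omega) n4).2 h1 h2)
  · intro i hi
    have hlen1 := hlenP i hi
    have hj : (i + 1) % (2 * J) < 2 * J := Nat.mod_lt _ (by omega)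
    have hlen2 := hlenP _ hj
    have hab : ∃ a b, (a = c i ∨ a = c i + 1) ∧
        (b = c ((i + 1) % (2 * J)) ∨ b = c ((i + 1) % (2 * J)) + 1) ∧
        (b = a + 1 ∨ a = b + 1) := by
      by_cases hlast : i + 1 = 2 * J
      · refine ⟨1, 0, ?_, ?_, by omega⟩
        · right
          simp only [c]
          split_ifs <;> omega
        · left
          rw [hlast, Nat.mod_self]
          simp only [c]
          split_ifs <;> omega
      · rw [Nat.mod_eq_of_lt (show i + 1 < 2 * J by omega)]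
        by_cases h1 : i + 1 < J
        · exact ⟨2 * i + 1, 2 * i + 2, by simp only [c]; split_ifs <;> omega,
            by simp only [c]; split_ifs <;> omega, by omega⟩
        · by_cases h2 : i < J
          · exact ⟨2 * i, 2 * i + 1, by simp only [c]; split_ifs <;> omega,
              by simp only [c]; split_ifs <;> omega, by omega⟩
          · exact ⟨2 * (2 * J - 1 - i), 2 * (2 * J - 1 - i) - 1,
              by simp only [c]; split_ifs <;> omega,
              by simp only [c]; split_ifs <;> omega, by omega⟩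
    obtain ⟨a, b, ha, hb, hab⟩ := hab
    exact hlink1 i hi _ hj a b ha hb hab _ _ (List.drop_suffix _ _).isInfix
      (List.take_prefix _ _).isInfix (by rw [List.length_drop]; omega)
      (by rw [List.length_take]; omega)
  · have hterm : ∀ i ∈ range (2 * J), (2 * h - 8 * s : ℝ) ≤
        ((P i).length : ℝ) - 2 * ((2 * s : ℕ) : ℝ) := by
      intro i hi
      have := (hP i (mem_range.1 hi)).2.2.2.1
      have h' : (2 * h : ℝ) ≤ (P i).length + 4 * s := by exact_mod_cast this
      push_cast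
      linarith
    have hsum := Finset.sum_le_sum hterm
    rw [Finset.sum_const, card_range, nsmul_eq_mul] at hsum
    push_cast at hsum ⊢
    linarith

end Pool.H85.LC
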