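import Pool.Agent.Helper85.LC.Defs
import Pool.Agent.Helper51.LC_Ring

/-!
# MP_816dee_pr, modules F1 and F2: dense pieces contain long cycles

`ClusterPath` is the statement of module R (`cluster_path`); the theorems here take it as a
hypothesis, so that `dense_cycle := dense_cycle_of @cluster_path` once module R is there.
-/

namespace Pool.H85.LC

open Finset

/-- the statement of `cluster_path` (module R) -/
def ClusterPath : Prop :=
  ∀ (ε : ℝ), 0 < ε → ε ≤ 1 / 4 → ∀ (C : ℝ), 1 ≤ C → ∀ (τ : ℝ), 0 < τ →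
    ∃ γ : ℝ, 0 < γ ∧ ∃ k0 : ℕ, ∀ k : ℕ, k0 ≤ k → ∀ (W : Type) [Fintype W] [Nonempty W]
      (F : SimpleGraph W), (Fintype.card W : ℝ) ≤ C * k →
      (1 - ε) * k * Fintype.card W ≤ 2 * F.edgeSet.ncard →
      ∃ (J h : ℕ) (U U' : ℕ → Finset W), 1 ≤ J ∧ 1 ≤ τ * h ∧ (1 - 2 * ε) * k ≤ 4 * h * J ∧
        (∀ i < 2 * J, (U i).card = h ∧ (U' i).card = h) ∧
        (∀ i < 2 * J, ∀ j < 2 * J, Disjoint (U i) (U' j)) ∧
        (∀ i < 2 * J, ∀ j < 2 * J, i ≠ j → Disjoint (U i) (U j) ∧ Disjoint (U' i) (U' j)) ∧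
        ∀ i, i + 1 < 2 * J → ∀ A B : Finset W, (∀ v ∈ A, v ∈ U i ∨ v ∈ U' i) →
          (∀ v ∈ B, v ∈ U (i + 1) ∨ v ∈ U' (i + 1)) → τ * h ≤ A.card → τ * h ≤ B.card →
          γ * k ^ 2 ≤ gb F A B

/-- module F1 from module R -/
theorem dense_cycle_of (hclus : ClusterPath) (ε : ℝ) (hε : 0 < ε) (hε1 : ε ≤ 1 / 4) (C : ℝ) (hC : 1 ≤ C) :
    ∃ γ : ℝ, 0 < γ ∧ ∃ k0 : ℕ, ∀ k : ℕ, k0 ≤ k → ∀ (W : Type) [Fintype W] [Nonempty W]
      (F Γ : SimpleGraph W), (Fintype.card W : ℝ) ≤ C * k →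
      (1 - ε) * k * Fintype.card W ≤ 2 * F.edgeSet.ncard →
      (∀ A B : Finset W, Disjoint A B → γ * k ^ 2 ≤ gb F A B →
        ∃ a ∈ A, ∃ b ∈ B, Γ.Adj a b) →
      HasCycle Γ ((1 - 3 * ε) * k) := by
  obtain ⟨γ, hγ, k0, hk0⟩ := hclus ε hε hε1 C hC (ε / 8) (by positivity)
  refine ⟨γ, hγ, k0, ?_⟩
  intro k hk W _ _ F Γ hW hF hsee
  obtain ⟨J, h, U, U', hJ, hτ, hkJ, hcard, hUU', hdis, hpair⟩ := hk0 k hk W F hW hF
  -- s
  set s := ⌈ε / 8 * h⌉₊ with hs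
  have hs1 : ε / 8 * h ≤ s := Nat.le_ceil _
  have hs2 : (s : ℝ) ≤ ε / 4 * h := by
    have := Nat.ceil_lt_add_one (show 0 ≤ ε / 8 * h by positivity)
    rw [← hs] at this
    linarith
  have hs3 : 8 * s ≤ 2 * h := by
    have : (8 * s : ℝ) ≤ 2 * h := by
      have hh : (0 : ℝ) ≤ h := by positivity
      nlinarith
    exact_mod_cast this
  have hcyc := ring_of_clusters Γ J h s hJ hs3 U U' hcard hUU' hdis (by
    intro i hi A B hA hB hAs hBs
    have hdisj : Disjoint A B := by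
      rw [Finset.disjoint_left]
      intro v hvA hvB
      rcases hA v hvA with h1 | h1 <;> rcases hB v hvB with h2 | h2
      · exact Finset.disjoint_left.1 (hdis i (by omega) (i + 1) hi (by omega)).1 h1 h2
      · exact Finset.disjoint_left.1 (hUU' i (by omega) (i + 1) hi) h1 h2
      · exact Finset.disjoint_left.1 (hUU' (i + 1) hi i (by omega)) h2 h1
      · exact Finset.disjoint_left.1 (hdis i (by omega) (i + 1) hi (by omega)).2 h1 h2
    refine hsee A B hdisj (hpair i hi A B hA hB ?_ ?_)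
    · exact hs1.trans (by exact_mod_cast hAs)
    · exact hs1.trans (by exact_mod_cast hBs))
  obtain ⟨v, w, hw, hlen⟩ := hcyc
  refine ⟨v, w, hw, le_trans ?_ hlen⟩
  have h1 : (16 * J * s : ℝ) ≤ 4 * ε * (J * h) := by
    have : (J : ℝ) * s ≤ J * (ε / 4 * h) := mul_le_mul_of_nonneg_left hs2 (by positivity)
    linarith
  have h2 : (1 - 3 * ε) * k ≤ (1 - ε) * ((1 - 2 * ε) * k) := by
    have : (0 : ℝ) ≤ ε ^ 2 * k := by positivity
    nlinarith
  have h3 : (1 - ε) * ((1 - 2 * ε) * k) ≤ (1 - ε) * (4 * h * J) :=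
    mul_le_mul_of_nonneg_left hkJ (by linarith)
  linarith

/-- module F2 from module R -/
theorem dense_cycle'_of (hclus : ClusterPath) (ε : ℝ) (hε : 0 < ε) (hε1 : ε ≤ 1 / 4) (C : ℝ) (hC : 1 ≤ C) :
    ∃ γ : ℝ, 0 < γ ∧ ∃ k0 : ℕ, ∀ k : ℕ, k0 ≤ k → ∀ (V : Type) (E F : Finset (Sym2 V))
      (Λ : Finset V), (∀ e ∈ E, ¬ e.IsDiag) → Λ.Nonempty → (Λ.card : ℝ) ≤ C * k →
      (1 - ε) * k * Λ.card ≤ 2 * eb E Λ Λ →
      (∀ A ⊆ Λ, ∀ B ⊆ Λ, γ * k ^ 2 ≤ eb E A B → ∃ a ∈ A, ∃ b ∈ B, s(a, b) ∈ F) →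
      HasCycle (SimpleGraph.fromEdgeSet (F : Set (Sym2 V))) ((1 - 3 * ε) * k) := by
  classical
  obtain ⟨γ, hγ, k0, hk0⟩ := dense_cycle_of hclus ε hε hε1 C hC
  refine ⟨γ, hγ, k0, ?_⟩
  intro k hk V E F Λ hE hΛ hcard hdense hsee
  have : Nonempty {v // v ∈ Λ} := ⟨⟨hΛ.choose, hΛ.choose_spec⟩⟩
  let Γ : SimpleGraph {v // v ∈ Λ} :=
    (SimpleGraph.fromEdgeSet (F : Set (Sym2 V))).comap (Subtype.val)
  obtain ⟨G, hG⟩ : ∃ G : SimpleGraph {v // v ∈ Λ},
      ∀ a b : {v // v ∈ Λ}, G.Adj a b ↔ s((a : V), (b : V)) ∈ E := by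
    refine ⟨(SimpleGraph.fromEdgeSet (E : Set (Sym2 V))).comap (Subtype.val), ?_⟩
    intro a b
    simp only [SimpleGraph.comap_adj, SimpleGraph.fromEdgeSet_adj, Finset.mem_coe]
    constructor
    · exact fun h => h.1
    · intro h
      refine ⟨h, fun hab => hE _ h ?_⟩
      rw [Sym2.mk_isDiag_iff]
      exact hab
  have hcardW : Fintype.card {v // v ∈ Λ} = Λ.card := Fintype.card_coe Λ
  have hedge : eb E Λ Λ ≤ G.edgeSet.ncard := by
    unfold eb
    have hsub : ((E.filter fun e => ∃ a ∈ Λ, ∃ b ∈ Λ, e = s(a, b) : Finset (Sym2 V)) :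
        Set (Sym2 V)) ⊆ (Sym2.map Subtype.val) '' G.edgeSet := by
      intro e he
      rw [Finset.mem_coe, Finset.mem_filter] at he
      obtain ⟨heE, a, ha, b, hb, rfl⟩ := he
      refine ⟨s(⟨a, ha⟩, ⟨b, hb⟩), ?_, rfl⟩
      rw [SimpleGraph.mem_edgeSet, hG]
      exact heE
    have hfin : G.edgeSet.Finite := Set.toFinite _
    calc _ = ((E.filter fun e => ∃ a ∈ Λ, ∃ b ∈ Λ, e = s(a, b) : Finset (Sym2 V)) :
        Set (Sym2 V)).ncard := by rw [Set.ncard_coe_finset]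
      _ ≤ ((Sym2.map Subtype.val) '' G.edgeSet).ncard :=
          Set.ncard_le_ncard hsub (hfin.image _)
      _ ≤ G.edgeSet.ncard := Set.ncard_image_le hfin
  have hcyc := hk0 k hk {v // v ∈ Λ} G Γ (by rw [hcardW]; exact hcard) (by
    rw [hcardW]
    refine hdense.trans ?_
    have : (eb E Λ Λ : ℝ) ≤ G.edgeSet.ncard := by exact_mod_cast hedge
    linarith) (by
    intro A B hAB hγk
    have hmap : ∀ S : Finset {v // v ∈ Λ}, S.map (Function.Embedding.subtype _) ⊆ Λ := by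
      intro S v hv
      rw [Finset.mem_map] at hv
      obtain ⟨w, -, rfl⟩ := hv
      exact w.2
    have hle : gb G A B ≤ eb E (A.map (Function.Embedding.subtype _))
        (B.map (Function.Embedding.subtype _)) := by
      unfold gb eb
      refine Finset.card_le_card_of_injOn (fun e => s((e.1 : V), (e.2 : V))) ?_ ?_
      · intro e he
        rw [Finset.mem_coe, Finset.mem_filter, Finset.mem_product] at he
        rw [Finset.mem_coe, Finset.mem_filter]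
        refine ⟨(hG _ _).1 he.2, e.1, ?_, e.2, ?_, rfl⟩
        · exact Finset.mem_map.2 ⟨e.1, he.1.1, rfl⟩
        · exact Finset.mem_map.2 ⟨e.2, he.1.2, rfl⟩
      · intro e he e' he' hee
        rw [Finset.mem_coe, Finset.mem_filter, Finset.mem_product] at he he'
        rcases Sym2.eq_iff.1 hee with ⟨h1, h2⟩ | ⟨h1, h2⟩
        · exact Prod.ext (Subtype.ext h1) (Subtype.ext h2)
        · exfalso
          have : e.1 = e'.2 := Subtype.ext h1
          exact Finset.disjoint_left.1 hAB he.1.1 (this ▸ he'.1.2)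
    obtain ⟨a, ha, b, hb, hab⟩ := hsee _ (hmap A) _ (hmap B)
      (hγk.trans (by exact_mod_cast hle))
    rw [Finset.mem_map] at ha hb
    obtain ⟨a', ha', rfl⟩ := ha
    obtain ⟨b', hb', rfl⟩ := hb
    refine ⟨a', ha', b', hb', ?_⟩
    simp only [Γ, SimpleGraph.comap_adj, SimpleGraph.fromEdgeSet_adj, Finset.mem_coe]
    refine ⟨hab, fun h => ?_⟩
    exact Finset.disjoint_left.1 hAB ha' ((Subtype.ext h : a' = b') ▸ hb'))
  obtain ⟨v, w, hw, hlen⟩ := hcyc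
  let f : Γ →g (SimpleGraph.fromEdgeSet (F : Set (Sym2 V))) :=
    ⟨Subtype.val, fun {a b} h => by simpa [Γ] using h⟩
  refine ⟨f v, w.map f, ?_, ?_⟩
  · exact (SimpleGraph.Walk.isCycle_map_iff_of_injective Subtype.val_injective).2 hw
  · rw [SimpleGraph.Walk.length_map]
    exact hlen

end Pool.H85.LC
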